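import Mathlib
import Pool.Agent.Q181.SHDSigma

/-!
MP_f0fa00_gt, Q1 (no): SHD is not dense hereditary.  The Cantor cube `2^𝔠` is SHD, its dense
Σ-product is not.
-/

namespace Pool.Agent.Results.MP_f0fa00_gt.NotDenseHereditary

open Pool.Agent.Q181.SHDSigma

/-- There are a compact Hausdorff SHD space `X` and a dense subset `D` which is not SHD. -/
theorem result : ∃ (X : Type) (_ : TopologicalSpace X), CompactSpace X ∧ T2Space X ∧ SHD X ∧
    ∃ D : Set X, Dense D ∧ ¬ SHD D :=
  ⟨Idx → Bool, inferInstance, inferInstance, inferInstance, shd_cube,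
    Sig Idx, dense_sig Idx, not_shd_sig Idx⟩

end Pool.Agent.Results.MP_f0fa00_gt.NotDenseHereditary
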